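import Pool.Agent.H9.CA.TarG

/-!
Board caa_modules, row HG: chains exist.
-/

set_option linter.unusedVariables false

open Ordinal Order Set
open scoped ZFSet

namespace CAA

open SF

theorem pf_HG (hHB : T_HB) (hHF : T_HF) (hDE : T_DE) (hGH : T_GH) : T_HG := by
  intro D ok i hi ρ hρ a ha
  have kz : ZFm (· ∈ LA ∅ D.χ) := ok.grd.zχ
  have hord := ((hGH D ok).2.2 D.χ kz).2.2
  have hκχ := ok.grd.κχ
  have hpar : par D a ρ ∈ LA ∅ D.χ := by
    unfold par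
    refine kz.mpair ha (kz.mpair ((hord _).2 hκχ) (kz.mpair ok.sz.gaM (kz.mpair ok.sz.muM
      ((hord _).2 ?_))))
    exact (hρ.trans (ok.sz.μκ i hi)).trans hκχ
  have hB := hHB D ok i hi ρ hρ (par D a ρ) hpar
  have hcl : ∀ m ≤ ρ, ∀ F : (V → Prop) → (ℕ → V) → V, Tm ZFm F →
      ∀ v : ℕ → V, (∀ j, v j ∈ Hc (LA ∅ D.χ) (par D a ρ) m.toZFSet) →
        F (· ∈ LA ∅ D.χ) v ∈ Hc (LA ∅ D.χ) (par D a ρ) m.toZFSet := by
    intro m hm F hF v hv
    exact hDE.1 (LA ∅ D.χ) _ (hB m hm).2.2.2.1 kz F hF v hv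
  have hp0 : par D a ρ ∈ Hc (LA ∅ D.χ) (par D a ρ) (0 : Ordinal.{0}).toZFSet :=
    (hB 0 zero_le).2.2.2.2.1
  refine ⟨fun m => Hc (LA ∅ D.χ) (par D a ρ) m.toZFSet, ?_, ?_, ?_, hcl, ?_, ?_, ?_, ?_, ?_⟩
  · have h1 := hcl 0 zero_le (fun _ v => fst (v 0)) (Tm.fst (Tm.var 0))
      (fun _ => par D a ρ) fun _ => hp0
    simpa [par] using h1
  · have h1 := hcl 0 zero_le (fun _ v => snd (snd (snd (snd (v 0)))))
      (Tm.snd (Tm.snd (Tm.snd (Tm.snd (Tm.var 0))))) (fun _ => par D a ρ) fun _ => hp0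
    simpa [par] using h1
  · intro m hm
    exact ⟨(hB m hm).1, (hB m hm).2.1⟩
  · intro l m hlm hm
    rcases hlm.eq_or_lt with rfl | h
    · exact fun x hx => hx
    · exact ((hB m hm).2.2.2.2.2.1 l h).1
  · intro l m hlm hm
    have h1 := ((hB m hm).2.2.2.2.2.1 l hlm).2
    have h2 : (resS (succ l).toZFSet fun x => Hc (LA ∅ D.χ) (par D a ρ) x.rank.toZFSet) =
        resS (succ l).toZFSet fun x => Hc (LA ∅ D.χ) (par D a ρ) x := by
      apply resS_congr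
      intro x hx
      obtain ⟨b, -, rfl⟩ := Ordinal.mem_toZFSet_iff.1 hx
      rw [Ordinal.rank_toZFSet]
    show (resS (succ l).toZFSet fun x => Hc (LA ∅ D.χ) (par D a ρ) x.rank.toZFSet) ∈ _
    rw [h2]
    exact h1
  · intro m hm hlim x hx
    exact (hB m hm).2.2.2.2.2.2 hlim x hx
  · intro m hm
    exact (hB m hm).2.2.1
  · intro m hm hlim k hik hk δ hδ h1 h2
    exact hHF D ok i hi ρ hρ a ha m hm hlim k hik hk δ hδ h1 h2

end CAA
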