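import Pool.Agent.H9.CA.TarG

/-!
Board caa_modules, row SA: the sets are stationary.
-/

set_option linter.unusedVariables false

open Ordinal Order Set
open scoped ZFSet

namespace CAA

open SF

namespace H34

/-- the union of the successors of the ordinals below `m` in the hull with index `n` -/
noncomputable def Fn (g m C s n : V) : V :=
  (⋃₀ (imS (Xh g m C s n ∩ m) fun x => insert x x) : ZFSet)

theorem tm_Xh (hDB : T_DB) : Tm ZFm (fun _ v => Xh (v 1) (v 2) (v 3) (v 4) (v 0)) := by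
  have h1 : Tm ZFm (fun _ v => LAS ∅ (app (v 4) (v 0))) :=
    Tm.LAS Tm.empty (Tm.app (Tm.var 4) (Tm.var 0))
  have h2 : Tm ZFm (fun _ v => (LAS ∅ (v 1) ∪ {v 1, v 2, v 3} ∪ imS (v 0) fun l => app (v 4) l : V)) := by
    refine Tm.union (Tm.union (Tm.LAS Tm.empty (Tm.var 1))
      (Tm.ins (Tm.var 1) (Tm.ins (Tm.var 2) (Tm.sing (Tm.var 3))))) ?_
    exact (Tm.image (f := fun _ v => v 0) (g := fun _ v => app (v 5) (v 0)) (Tm.var 0)
      (Tm.app (Tm.var 5) (Tm.var 0))).congr fun M k v hv => rfl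
  exact Tm.at2 (F := fun _ x y => Dcl x y) hDB h1 h2

theorem tm_Fn (hDB : T_DB) : Tm ZFm (fun _ v => Fn (v 1) (v 2) (v 3) (v 4) (v 0)) := by
  refine Tm.sUnion ?_
  exact (Tm.image (f := fun _ v => Xh (v 1) (v 2) (v 3) (v 4) (v 0) ∩ v 2)
    (g := fun _ v => insert (v 0) (v 0)) (Tm.inter (tm_Xh hDB) (Tm.var 2))
    (Tm.ins (Tm.var 0) (Tm.var 0))).congr fun M k v hv => rfl

theorem tm_res (hDB : T_DB) :
    Tm ZFm (fun _ v => resS om fun n => Fn (v 0) (v 1) (v 2) (v 3) n) :=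
  (Tm.resS Tm.om (tm_Fn hDB)).congr fun M k v hv => rfl

/-- a bounded set of ordinals: the union of the successors is an ordinal -/
theorem sup_eq {X : V} {μ η : Ordinal.{0}} (h : ∀ ξ < μ, ξ.toZFSet ∈ X → ξ < η) :
    ∃ β ≤ η, (⋃₀ (imS (X ∩ μ.toZFSet) fun x => insert x x) : ZFSet) = β.toZFSet := by
  set S : Set Ordinal.{0} := {β | ∀ ξ < μ, ξ.toZFSet ∈ X → ξ < β} with hS
  have hne : S.Nonempty := ⟨η, h⟩
  refine ⟨sInf S, csInf_le' h, ?_⟩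
  have hmem : sInf S ∈ S := csInf_mem hne
  ext y
  rw [ZFSet.mem_sUnion, Ordinal.mem_toZFSet_iff]
  constructor
  · rintro ⟨z, hz, hy⟩
    rw [mem_imS] at hz
    obtain ⟨x, hx, rfl⟩ := hz
    rw [ZFSet.mem_inter, Ordinal.mem_toZFSet_iff] at hx
    obtain ⟨hxX, ξ, hξ, rfl⟩ := hx
    rcases ZFSet.mem_insert_iff.1 hy with rfl | hy
    · exact ⟨ξ, hmem ξ hξ hxX, rfl⟩
    · obtain ⟨a, ha, rfl⟩ := Ordinal.mem_toZFSet_iff.1 hy
      exact ⟨a, ha.trans (hmem ξ hξ hxX), rfl⟩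
  · rintro ⟨a, ha, rfl⟩
    have hnot : a ∉ S := fun hc => absurd ha (not_lt.2 (csInf_le' hc))
    simp only [hS, Set.mem_ofPred_eq, not_forall, not_lt] at hnot
    obtain ⟨ξ, hξ, hξX, haξ⟩ := hnot
    refine ⟨insert ξ.toZFSet ξ.toZFSet, ?_, ?_⟩
    · rw [mem_imS]
      exact ⟨ξ.toZFSet, ZFSet.mem_inter.2 ⟨hξX, Ordinal.toZFSet_mem_toZFSet_iff.2 hξ⟩, rfl⟩
    · rcases haξ.eq_or_lt with rfl | h1
      · exact ZFSet.mem_insert_iff.2 (Or.inl rfl)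
      · exact ZFSet.mem_insert_iff.2 (Or.inr (Ordinal.toZFSet_mem_toZFSet_iff.2 h1))

end H34

open H34

theorem pf_SA (hSC : T_SC) (hSE : T_SE) (hGH : T_GH) (hDB : T_DB) : T_SA := by
  intro D ok i hi C hC hcl
  obtain ⟨t, s, X, δ, lad, hδC⟩ := hSC D ok i hi C hC hcl
  obtain ⟨tb, hcz, htb, hns⟩ := hSE D ok i C t s X δ lad
  refine ⟨δ, lad.δμ, hδC, lad.γδ, ?_, ⟨tb 0, (htb 0).1, (htb 0).2.1, (hcz 0).1, (htb 0).2.2⟩, ?_⟩
  · have kz : ZFm (· ∈ LA ∅ D.κ) := ok.grd.zκ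
    have hord := ((hGH D ok).2.2 D.κ kz).2.2
    have hXκ : X ∈ LA ∅ D.κ := lad.XM
    have hCκ : C ∈ LA ∅ D.κ := kz.trans X hXκ C lad.cX
    have hgκ : (D.γ i).toZFSet ∈ LA ∅ D.κ := (hord _).2 (ok.sz.γκ i hi)
    have hmκ : (D.μ i).toZFSet ∈ LA ∅ D.κ := (hord _).2 (ok.sz.μκ i hi)
    set g := (D.γ i).toZFSet with hg
    set m := (D.μ i).toZFSet with hm
    have hmem : (resS om fun n => Fn g m C s n) ∈ LA ∅ D.κ := by
      have h0 : ∅ ∈ LA ∅ D.κ := kz.mempty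
      have h1 := (tm_res hDB).1 (· ∈ LA ∅ D.κ) kz (cons g (cons m (cons C (cons s fun _ => ∅)))) (by
        intro j
        match j with
        | 0 => exact hgκ
        | 1 => exact hmκ
        | 2 => exact hCκ
        | 3 => exact lad.sM
        | j + 4 => exact h0)
      exact h1
    have hval : ∀ n : ℕ, ∃ β < δ, Fn g m C s (nS n) = β.toZFSet := by
      intro n
      obtain ⟨η, hη, hb⟩ := lad.bd n
      obtain ⟨β, hβ, he⟩ := sup_eq hb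
      exact ⟨β, hβ.trans_lt hη, he⟩
    refine ⟨_, hmem, ?_, ?_⟩
    · apply isFunc_resS
      intro x hx
      obtain ⟨n, rfl⟩ := mem_om.1 hx
      obtain ⟨β, hβ, he⟩ := hval n
      rw [he]
      exact Ordinal.toZFSet_mem_toZFSet_iff.2 hβ
    · intro ξ hξ
      have hξμ : ξ < D.μ i := hξ.trans lad.δμ
      have hξX : ξ.toZFSet ∈ X := (lad.Xμ ξ hξμ).2 hξ
      obtain ⟨n, hn⟩ := (lad.Xe _).1 hξX
      refine ⟨n, ?_⟩
      rw [app_resS (mem_om.2 ⟨n, rfl⟩)]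
      unfold Fn
      rw [ZFSet.mem_sUnion]
      refine ⟨insert ξ.toZFSet ξ.toZFSet, ?_, ZFSet.mem_insert_iff.2 (Or.inl rfl)⟩
      rw [mem_imS]
      exact ⟨ξ.toZFSet, ZFSet.mem_inter.2 ⟨hn, Ordinal.toZFSet_mem_toZFSet_iff.2 hξμ⟩, rfl⟩
  · intro ρ hδρ hρκ hz hnsρ
    have hnot : ¬ ∀ n, tb n < ρ := fun hall => hns ρ hz hall hnsρ
    push Not at hnot
    obtain ⟨n, hn⟩ := hnot
    exact ⟨tb (n + 1), hn.trans_lt (hcz n).2.1, (htb (n + 1)).2.1, (hcz (n + 1)).1, (htb (n + 1)).2.2⟩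

end CAA
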